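import Pool.Agent.X312.CQ.Red

/-!
# A gap law for the algebraicity of Tate classes after reduction

Let `k` be a finitely generated field of characteristic `0` and let `Y` be **any** smooth
projective variety over `k`. Let `X` be a smooth projective variety over `k` such that homological
and numerical equivalence agree on its powers: for example **any product of curves, surfaces and
abelian varieties**. Let `ι` be the set of the points `s` (of models over finitely generated
rings) at which `X` and `Y` have good reduction; it is countable. Let `M` be a direct summand of
the motive of `X ^ m` over the algebraic closure modulo homological equivalence (with coefficients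
in `ℚ_ℓ`), and let `M` be the sum of irreducible motives `M_1, …, M_r` of rank at least `D` (where
`dim H(M_j)` is the rank of `M_j`). For `D = 1` the motive `M` is arbitrary, for example the
motive of `X ^ m`, as the category of motives which is generated by `X` is semisimple. Let `ρ(Z)`
be the dimension of the space of the algebraic classes on `Z` and `b` the sum of the Betti numbers
of `X`.

**Either every Tate class on** `Y ⊗ M` **has algebraic reduction at some** `s`, **or for all** `n
≥ 1` **there is a space** `U` **of Tate classes on** `Y × X ^ n` **with**

`dim U ≥ (D - 4 (m + 3) b ^ (m + 5) log (n + 1) / n) ρ(X ^ n)`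

**such that no nonzero class in** `U` **has algebraic reduction at any** `s`.

So if the answer to Deligne's question Q1 is negative for one class on `Y × X ^ m` (for the points
of good reduction of `X` and `Y`) then it is negative for all `Y × X ^ n`, `n` large, and for all
nonzero classes in a very large space of Tate classes. Note that it is not clear at first that the
classes with algebraic reduction somewhere miss even one Tate class on `Y × X ^ n`, as they form
an infinite union of subspaces.

The proof. Let `T(Z)` be the space of the Tate classes on `Y × Z`, and let `T_s(Z)` be the
subspace of the classes whose reduction at `s` is algebraic; it is stable under algebraic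
correspondences, which can be reduced as well. Let `P = X ^ m` and let `z` be a Tate class on `Y ⊗
M` which is in no `T_s(P)`. Fix `s`; then there is a `j`, which depends on `s`, such that the
component `z' = e z` of `z` on `Y ⊗ M_j` is not in `T_s(P)`, with `e = e_j` the projector of
`M_j`. If a correspondence `x` has `x z'` in `T_s` then `e x e` is not invertible on `M_j`, so it
is nilpotent, as `M_j` is irreducible, and the trace of `e x` vanishes; therefore the codimension
of `T_s(Z)` in `T(Z)` is at least the rank of the trace form `(u, v) ↦ tr (e v u)` on the
correspondences between `P` and `Z`. For `Z = X ^ n` this rank is at least `(D - ε) ρ(X ^ n)`, by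
the log-convexity of the sequence of the numbers `ρ(X ^ (2 l))`, by tensor powers, and by the
symmetric group, which excludes small growth. For the other parity `M_j` is cut out of `X ^ (m +
1)`. So all the subspaces `T_s(X ^ n)` have codimension at least `r`, the same number for all `s`.
As `ℚ_ℓ` is not countable, there is a space `U` of dimension `r` which meets all of them in `0`: a
finite-dimensional space over an uncountable field is not a countable union of proper subspaces
(intersect with the moment curve), and one adds one vector after the other.
-/

set_option autoImplicit false

open CategoryTheory AlgebraicGeometry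

universe u v w

namespace Pool.Agent.Results.MP_b7cd1b_ag.ReductionGapLaw

open Pool.Agent.H914 VarClass Obj WeilCohomology
open Pool.Agent.X312.FK (composite IrreducibleIn)
open Pool.Agent.X312.FC (CorrData corrRank rankBound)
open Pool.Agent.X312.FM (Family Has IsRingFamily IsNondeg dimOn)
open Pool.Agent.X312.CQ (IsReduction)
open Pool.Agent.Y133.Half (pw)

variable {k : Type u} [Field k] {𝒱 : VarClass k} {ops : CycleOps 𝒱}
  {W : WeilCohomology.{u, v} ops}

/-- The sum of the Betti numbers of `X`. -/
noncomputable def totalBetti (W : WeilCohomology.{u, v} ops) (X : 𝒱.Obj) : ℕ :=
  Module.finrank W.K (W.H X)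

/-- **The gap law for reductions.** In the intended use `C Z` is the space of the algebraic classes on
`Z`, `T.M Z` is the space of the Tate classes on `Y × Z`, `ι` is the set of the points of good reduction
of `X` and `Y`, `alg s Z` is the space of the Tate classes whose reduction at `s` is algebraic, and `e j`
is the projector of the motive `M_j`. Here `corrRank (e j)` is the rank of this motive, `dimOn C Z` is the
dimension of `C Z`, and `pw X m` is the product of `m + 1` copies of `X`. -/
theorem result [Uncountable W.K] (C : Family W) (hC : IsRingFamily C) (T : CorrData W)
    (hT : T.IsFunctor C) (hfin : ∀ Z : 𝒱.Obj, FiniteDimensional W.K (T.M Z)) {ι : Type}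
    [Countable ι] [Nonempty ι] (alg : ι → ∀ Z : 𝒱.Obj, Submodule W.K (T.M Z))
    (halg : IsReduction C T alg) (X : 𝒱.Obj) (hX : ∀ n, IsNondeg C (pw X n)) (m : ℕ)
    {J : Type} [Fintype J] (e : J → W.H ((pw X m).prod (pw X m))) (he : ∀ j, Has C (e j))
    (hee : ∀ j, composite W (e j) (e j) = e j) (hirr : ∀ j, IrreducibleIn (Has C) (e j))
    (D : ℕ) (hD : ∀ j, D ≤ corrRank (e j)) :
    (∀ x : T.M (pw X m), ∃ s : ι, ∑ j : J, T.act (e j) x ∈ alg s (pw X m)) ∨
    ∀ n : ℕ, ∃ U : Submodule W.K (T.M (pw X n)), (∀ s : ι, U ⊓ alg s (pw X n) = ⊥) ∧
      rankBound D (totalBetti W X) (dimOn C (pw X n)) m n ≤ Module.finrank W.K U :=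
  Pool.Agent.X312.CQ.reduction_law hC hT hfin halg X hX he hee hirr hD

end Pool.Agent.Results.MP_b7cd1b_ag.ReductionGapLaw
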